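import Pool.Agent.Helper62.BX.Stm
import Pool.Agent.Helper4.BL.FewK

/-!
# `X_L`: the families `y ^ 2 = f(s, x) - φ(s, t)` (after helper4's `l_FewK`)
-/

set_option autoImplicit false

open Polynomial Matrix Finset NumberField IsDedekindDomain

namespace Pool.Agent.Helper90.BX

open Pool.Agent.Helper62.BM Pool.Agent.Helper62.BX Pool.Agent.Helper90.BM Pool.Agent.Helper4.BM
open Pool.Agent.Helper4.BL (Yh_eval)

/-- The roots of a separable polynomial generate a finitely generated extension. -/
theorem rootsR (R : Type) [CommRing R] [IsDomain R] (n : ℕ) (f : R[X]) (hf : f.natDegree = n)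
    (hsep : (f.map (algebraMap R (FractionRing R))).Separable) :
    ∃ (A : Subalgebra R (AlgebraicClosure (FractionRing R))) (a : Fin n → A), A.FG ∧
      Function.Injective a ∧ f.map (algebraMap R A) =
        C (algebraMap R A f.leadingCoeff) * ∏ j, (X - C (a j)) := by
  classical
  set E' := AlgebraicClosure (FractionRing R) with hE'
  set F : E'[X] := (f.map (algebraMap R (FractionRing R))).map (algebraMap (FractionRing R) E')
    with hF
  have hinj : Function.Injective (algebraMap R (FractionRing R)) :=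
    IsFractionRing.injective R (FractionRing R)
  have hdeg : F.natDegree = n := by
    rw [hF, natDegree_map, natDegree_map_eq_of_injective hinj, hf]
  have hF0 : F.Separable := hsep.map
  have hsplit : F.Splits := IsAlgClosed.splits F
  have hcard : F.roots.card = n := by
    rw [← hdeg]
    exact (splits_iff_card_roots.1 hsplit)
  have hnd : F.roots.Nodup := nodup_roots hF0
  obtain ⟨S, hS⟩ : ∃ S : Finset E', S.val = F.roots := ⟨⟨F.roots, hnd⟩, rfl⟩
  have hScard : S.card = n := by
    rw [Finset.card_def, hS, hcard]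
  let e : Fin n ≃ S := (S.equivFinOfCardEq hScard).symm
  let A := Algebra.adjoin R (S : Set E')
  have hmem : ∀ j, ((e j : S) : E') ∈ A := fun j =>
    Algebra.subset_adjoin (Finset.mem_coe.2 (e j).2)
  have hprod : F = C F.leadingCoeff * ∏ j, (X - C ((e j : S) : E')) := by
    have h1 := hsplit.eq_prod_roots
    have h2 : (F.roots.map fun a => X - C a).prod = ∏ j, (X - C ((e j : S) : E')) := by
      rw [← hS]
      change ∏ a ∈ S, (X - C a) = _
      rw [← Finset.prod_coe_sort S (fun a => X - C a)]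
      exact (Equiv.prod_comp e fun x : S => (X - C (x : E'))).symm
    rw [h2] at h1
    exact h1
  refine ⟨A, fun j => ⟨(e j : S), hmem j⟩, Subalgebra.fg_adjoin_finset S, ?_, ?_⟩
  · intro i j hij
    have h1 : ((e i : S) : E') = ((e j : S) : E') := congrArg (fun z : A => (z : E')) hij
    exact e.injective (Subtype.ext h1)
  · have hval : Function.Injective (A.val : A →+* E') := Subtype.val_injective
    apply map_injective _ hval
    have h1 : (A.val : A →+* E').comp (algebraMap R A) =
        (algebraMap (FractionRing R) E').comp (algebraMap R (FractionRing R)) := by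
      ext x
      exact IsScalarTower.algebraMap_apply R (FractionRing R) E' x
    rw [Polynomial.map_map, h1, ← Polynomial.map_map, ← hF, Polynomial.map_mul,
      Polynomial.map_C, Polynomial.map_prod]
    simp only [Polynomial.map_sub, Polynomial.map_X, Polynomial.map_C]
    have h2 : (A.val : A →+* E') (algebraMap R A f.leadingCoeff) = F.leadingCoeff := by
      have h3 := RingHom.congr_fun h1 f.leadingCoeff
      rw [RingHom.comp_apply] at h3
      rw [h3, RingHom.comp_apply, hF, leadingCoeff_map, leadingCoeff_map_of_injective hinj]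
    rw [h2]
    exact hprod

/-- **X2.** -/
theorem x_L (hSp : X_Spread) (hG : L_FewG) : X_L := by
  classical
  intro K _ _ r g hg f φ hf hsep hcrit hφ G hG0 ε hε
  have hf0 : f ≠ 0 := by
    intro h
    rw [h, natDegree_zero] at hf
    omega
  have hdf : (derivative f).natDegree = 2 * g := by
    rw [natDegree_derivative, hf]
    rfl
  have hdf0 : derivative f ≠ 0 := by
    intro h
    rw [h, natDegree_zero] at hdf
    omega
  obtain ⟨A, a, hFG, hainj, hfact⟩ := rootsR (Rp K r) (2 * g) (derivative f) hdf hsep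
  have hclinj : Function.Injective (algebraMap (Rp K r) (Cl K r)) := by
    rw [IsScalarTower.algebraMap_eq (Rp K r) (FractionRing (Rp K r)) (Cl K r)]
    exact (algebraMap (FractionRing (Rp K r)) (Cl K r)).injective.comp
      (IsFractionRing.injective (Rp K r) (FractionRing (Rp K r)))
  have h1 : Function.Injective (algebraMap (Rp K r) A) := by
    intro x y hxy
    have h2 := congrArg (fun z : A => (z : Cl K r)) hxy
    exact hclinj h2
  have h2 : Algebra.FiniteType (Rp K r) A := (Subalgebra.fg_iff_finiteType A).mp hFG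
  have hCZ0 : CharZero (Rp K r) := inferInstance
  have hCZ : CharZero A := charZero_of_injective_algebraMap h1
  have hc0 : f.leadingCoeff ≠ 0 := leadingCoeff_ne_zero.2 hf0
  have hdc0 : (derivative f).leadingCoeff ≠ 0 := leadingCoeff_ne_zero.2 hdf0
  have hφ0 : φ ≠ 0 := by
    intro h
    rw [h, natDegree_zero] at hφ
    omega
  have hl0 : φ.leadingCoeff ≠ 0 := leadingCoeff_ne_zero.2 hφ0
  have hGA0 : MvPolynomial.map (mapRingHom (algebraMap (Rp K r) A)) G ≠ 0 := by
    intro h
    apply hG0
    apply MvPolynomial.map_injective (mapRingHom (algebraMap (Rp K r) A)) (map_injective _ h1)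
    rw [h, map_zero]
  obtain ⟨H, hH0, hH⟩ := A2 A g _ hGA0
  set d := φ.natDegree with hd
  have hdpos : (0 : ℝ) < d := by exact_mod_cast hφ
  have hcA : algebraMap (Rp K r) A f.leadingCoeff ≠ 0 := by
    intro h
    exact hc0 (h1 (by rw [h, map_zero]))
  have hdcA : algebraMap (Rp K r) A (derivative f).leadingCoeff ≠ 0 := by
    intro h
    exact hdc0 (h1 (by rw [h, map_zero]))
  have haev : ∀ (q : (Rp K r)[X]) (x : A),
      aeval (x : Cl K r) q = (((q.map (algebraMap (Rp K r) A)).eval x : A) : Cl K r) := by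
    intro q x
    rw [eval_map, ← aeval_def]
    exact (Polynomial.aeval_algHom_apply A.val x q)
  have hroot : ∀ j, aeval ((a j : A) : Cl K r) (derivative f) = 0 := by
    intro j
    rw [haev, hfact, eval_mul, eval_prod, Finset.prod_eq_zero (Finset.mem_univ j) (by simp),
      mul_zero]
    rfl
  have hCr : Crit g (f.map (algebraMap (Rp K r) A))
      (algebraMap (Rp K r) A (derivative f).leadingCoeff) a := by
    refine ⟨?_, ?_, hainj, ?_⟩
    · rw [natDegree_map_eq_of_injective h1, hf]
    · rw [derivative_map, hfact]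
    · intro i j hij
      apply hainj
      apply Subtype.ext
      apply hcrit _ _ (hroot i) (hroot j)
      rw [haev, haev]
      exact congrArg (fun z : A => (z : Cl K r)) hij
  obtain ⟨p₀, a₀, ha₀, hfew⟩ := hG g hg A _ _ a hCr H hH0 (ε / (2 * d)) (by positivity)
  set b : A := a₀ * algebraMap (Rp K r) A f.leadingCoeff *
    algebraMap (Rp K r) A (derivative f).leadingCoeff with hb
  have hb0 : b ≠ 0 := mul_ne_zero (mul_ne_zero ha₀ hcA) hdcA
  obtain ⟨c₀, hc₀, hsp⟩ := hSp (Rp K r) A h1 h2 b hb0
  obtain ⟨N, hN⟩ := exists_nat_gt (4 * g * d / ε : ℝ)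
  have h20 : (2 : 𝓞 K) ≠ 0 := two_ne_zero
  refine ⟨c₀ * φ.leadingCoeff, mul_ne_zero hc₀ hl0, ?_⟩
  refine (((finite_mem (K := K) 2 h20).union (finite_le (K := K) p₀)).union
    (finite_le (K := K) N)).subset ?_
  rintro v ⟨hv, -, σ, hσ, hv'⟩
  by_contra hno
  simp only [Set.mem_union, Set.mem_ofPred_eq, not_or, not_le] at hno
  obtain ⟨⟨h2v, hp0⟩, hpN⟩ := hno
  rw [lt_iff_not_ge] at hv'
  apply hv'
  set p := Ideal.absNorm v.asIdeal with hp
  have hFp : Fact p.Prime := ⟨hv⟩
  have hcharκ := charP_res v hv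
  rw [← hp] at hcharκ
  set κ := v.asIdeal.ResidueField with hκ
  set ψ : Rp K r →+* κ := (algebraMap (𝓞 K) κ).comp (evs σ) with hψ
  have hψ0 : ∀ x : Rp K r, evs σ x ∉ v.asIdeal → ψ x ≠ 0 := by
    intro x hx h
    apply hx
    rw [← Ideal.algebraMap_residueField_eq_zero]
    exact h
  have hσ' : ψ (c₀ * φ.leadingCoeff) ≠ 0 := hψ0 _ hσ
  rw [map_mul] at hσ'
  have hψc : ψ c₀ ≠ 0 := left_ne_zero_of_mul hσ'
  have hψl : ψ φ.leadingCoeff ≠ 0 := right_ne_zero_of_mul hσ'
  have hψs : Function.Surjective ψ := by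
    intro x
    obtain ⟨y, hy⟩ := Ideal.algebraMap_residueField_surjective v.asIdeal x
    refine ⟨MvPolynomial.C y, ?_⟩
    rw [hψ, RingHom.comp_apply]
    unfold evs
    rw [MvPolynomial.eval_C, hy]
  obtain ⟨k, hk, χ, ι', hcomp, hχ⟩ := hsp κ ψ hψs hψc
  have hchar : CharP k p := charP_of_injective_ringHom ι'.injective p
  have hcn := card_res v
  rw [← hp] at hcn
  have hfinite : Finite κ := Nat.finite_of_card_ne_zero (by rw [hcn]; exact hv.ne_zero)
  have : Fintype κ := Fintype.ofFinite _
  rw [Nat.card_eq_fintype_card] at hcn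
  have hpow : ∀ t : κ, t ^ p = t := fun t => by
    rw [← hcn]
    exact FiniteField.pow_card t
  -- consequences of `χ b ≠ 0`
  have hχ1 : χ a₀ ≠ 0 := fun h => hχ (by rw [hb, map_mul, map_mul, h, zero_mul, zero_mul])
  have hχ2 : χ (algebraMap (Rp K r) A f.leadingCoeff) ≠ 0 := fun h =>
    hχ (by rw [hb, map_mul, map_mul, h, mul_zero, zero_mul])
  have hχ3 : χ (algebraMap (Rp K r) A (derivative f).leadingCoeff) ≠ 0 := fun h =>
    hχ (by rw [hb, map_mul, h, mul_zero])
  have hcι : χ (algebraMap (Rp K r) A f.leadingCoeff) = ι' (ψ f.leadingCoeff) :=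
    RingHom.congr_fun hcomp _
  set fκ : κ[X] := f.map ψ with hfκ
  set fk : k[X] := (f.map (algebraMap (Rp K r) A)).map χ with hfk
  have hfkk : fκ.map ι' = fk := by
    rw [hfκ, Polynomial.map_map, ← hcomp, ← Polynomial.map_map]
  have hlc : ψ f.leadingCoeff ≠ 0 := by
    intro h
    apply hχ2
    rw [hcι, h, map_zero]
  have hfdeg : fκ.natDegree = 2 * g + 1 := by
    rw [hfκ, natDegree_map_of_leadingCoeff_ne_zero _ hlc, hf]
  have hdfk : derivative fk = C (χ (algebraMap (Rp K r) A (derivative f).leadingCoeff)) *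
      ∏ j, (X - C (χ (a j))) := by
    rw [hfk, derivative_map, derivative_map, hfact, Polynomial.map_mul, Polynomial.map_C,
      Polynomial.map_prod]
    simp only [Polynomial.map_sub, Polynomial.map_X, Polynomial.map_C]
  set fs : (𝓞 K)[X] := f.map (evs σ) with hfs
  set φs : (𝓞 K)[X] := φ.map (evs σ) with hφs
  set Gs : MvPolynomial (Fin g × Fin g) (𝓞 K)[X] :=
    MvPolynomial.map (mapRingHom (evs σ)) G with hGs
  have hfsκ : fs.map (algebraMap (𝓞 K) κ) = fκ := by
    rw [hfs, hfκ, Polynomial.map_map]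
  have hφsκ : φs.map (algebraMap (𝓞 K) κ) = φ.map ψ := by
    rw [hφs, Polynomial.map_map]
  -- the bad members
  set rr : ℕ → κ := fun t => algebraMap (𝓞 K) κ (φs.eval (t : 𝓞 K)) with hr
  obtain ⟨Z1, hZ1⟩ : ∃ Z1 : Finset κ, Z1 =
    univ.filter (fun s => ∃ j, fk.eval (χ (a j)) = ι' s) := ⟨_, rfl⟩
  obtain ⟨Z2, hZ2⟩ : ∃ Z2 : Finset κ, Z2 =
    univ.filter (fun s => MvPolynomial.eval₂ ((evalRingHom (ι' s)).comp (mapRingHom χ))
      (fun u : Fin g × Fin g => (Yh p g (2 * g) (ft fk) u.1 (lo u.2)).eval (ι' s)) H = 0) :=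
    ⟨_, rfl⟩
  set Z : Finset κ := Z1 ∪ Z2 with hZ
  have hZcard : (Z.card : ℝ) ≤ 2 * g + ε / (2 * d) * p := by
    have e1 : Z1.card ≤ 2 * g := by
      have e2 : Z1.image ι' ⊆ (univ : Finset (Fin (2 * g))).image fun j => fk.eval (χ (a j)) := by
        intro s hs
        obtain ⟨s', hs', rfl⟩ := Finset.mem_image.1 hs
        rw [hZ1, Finset.mem_filter] at hs'
        obtain ⟨j, hj⟩ := hs'.2
        exact Finset.mem_image.2 ⟨j, Finset.mem_univ _, hj⟩
      rw [← Finset.card_image_of_injective _ ι'.injective]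
      refine (Finset.card_le_card e2).trans (Finset.card_image_le.trans ?_)
      rw [Finset.card_univ, Fintype.card_fin]
    have e3 := hfew p k χ hp0.le hχ1 (Z2.image ι') (by
        intro t ht
        obtain ⟨s, hs, rfl⟩ := Finset.mem_image.1 ht
        rw [hZ2, Finset.mem_filter] at hs
        exact ⟨by rw [← map_pow, hpow], hs.2⟩)
    rw [Finset.card_image_of_injective _ ι'.injective] at e3
    have e4 : (Z.card : ℝ) ≤ (Z1.card : ℝ) + Z2.card := by
      exact_mod_cast Finset.card_union_le _ _
    refine e4.trans (add_le_add ?_ e3)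
    exact_mod_cast e1
  have hbad : ∀ t : ℕ, ¬ (GoodOrd g (2 * g + 1) (membf fs φs t) v ∧
      Avoids g Gs (φs.eval (t : 𝓞 K)) (membf fs φs t) v) → rr t ∈ Z := by
    intro t ht
    by_contra hcon
    apply ht
    rw [hZ, Finset.mem_union, hZ1, hZ2, Finset.mem_filter, Finset.mem_filter, not_or, not_and,
      not_and] at hcon
    have hc1 : ¬ ∃ j, fk.eval (χ (a j)) = ι' (rr t) := hcon.1 (Finset.mem_univ _)
    have hc2 := hcon.2 (Finset.mem_univ _)
    have hrd : rd v (membf fs φs t) = fκ - C (rr t) := by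
      unfold rd membf
      rw [Polynomial.map_sub, Polynomial.map_C, hfsκ]
    have hrk : (rd v (membf fs φs t)).map ι' = fk - C (ι' (rr t)) := by
      rw [hrd, Polynomial.map_sub, Polynomial.map_C, hfkk]
    -- the Hasse-Witt matrix
    have hW : ∀ i j : Fin g, ι' (hasseWitt p g (rd v (membf fs φs t)) i j) =
        (Yh p g (2 * g) (ft fk) i (lo j)).eval (ι' (rr t)) := by
      intro i j
      rw [hasseWitt_map, hrk, Yh_eval p g fk _ hv.pos]
    have hnot := fun h => hc2 (hH k ((evalRingHom (ι' (rr t))).comp (mapRingHom χ))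
      (fun u : Fin g × Fin g => (Yh p g (2 * g) (ft fk) u.1 (lo u.2)).eval (ι' (rr t))) h)
    rw [imp_false, not_or, not_or] at hnot
    obtain ⟨hn1, hn2, -⟩ := hnot
    refine ⟨⟨h2v, ?_, ?_, ?_⟩, ?_⟩
    · rw [hrd, natDegree_sub_C, hfdeg]
    · rw [← Polynomial.separable_map ι', hrk]
      unfold Polynomial.Separable
      rw [derivative_sub, derivative_C, sub_zero, hdfk]
      rw [isCoprime_mul_unit_left_right (isUnit_C.2 (isUnit_iff_ne_zero.2 hχ3))]
      refine IsCoprime.prod_right fun j _ => ?_
      refine IsCoprime.symm ?_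
      rw [(irreducible_X_sub_C (χ (a j))).coprime_iff_not_dvd, dvd_iff_isRoot, IsRoot.def,
        eval_sub, eval_C, sub_eq_zero]
      exact fun h => hc1 ⟨j, h⟩
    · intro hdet
      apply hn1
      have hdet' : ι' ((hasseWitt p g (rd v (membf fs φs t))).det) = 0 := by
        rw [hdet, map_zero]
      rw [RingHom.map_det] at hdet'
      rw [← hdet']
      congr 1
      ext i j
      rw [Matrix.of_apply, RingHom.mapMatrix_apply, Matrix.map_apply, hW]
    · intro hav
      have h5 : ∀ W : Fin g × Fin g → k,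
          MvPolynomial.eval₂ ((evalRingHom (ι' (rr t))).comp (mapRingHom χ)) W
            (MvPolynomial.map (mapRingHom (algebraMap (Rp K r) A)) G) =
          MvPolynomial.eval₂ (ι'.comp ((algebraMap (𝓞 K) κ).comp
            (evalRingHom (φs.eval (t : 𝓞 K))))) W Gs := by
        intro W
        rw [hGs, MvPolynomial.eval₂_map, MvPolynomial.eval₂_map]
        congr 1
        refine Polynomial.ringHom_ext (fun x => ?_) ?_
        · simp only [RingHom.comp_apply, coe_mapRingHom, map_C, coe_evalRingHom, eval_C]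
          exact (RingHom.congr_fun hcomp x)
        · simp only [RingHom.comp_apply, coe_mapRingHom, map_X, coe_evalRingHom, eval_X]
          rfl
      have h6 := congrArg ι' hav
      rw [map_zero, MvPolynomial.eval₂_comp_left] at h6
      apply hn2
      rw [h5, ← h6]
      congr 1
      funext u
      exact (hW u.1 u.2).symm
  have hfib : ∀ s : κ, (((range p).filter fun t : ℕ => ¬ (GoodOrd g (2 * g + 1) (membf fs φs t) v ∧
      Avoids g Gs (φs.eval (t : 𝓞 K)) (membf fs φs t) v)).filter
        (fun t => rr t = s)).card ≤ d := by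
    intro s
    have hdegφ : (φ.map ψ).natDegree = d := natDegree_map_of_leadingCoeff_ne_zero _ hψl
    have hne : φ.map ψ - C s ≠ 0 := by
      intro h
      rw [sub_eq_zero] at h
      rw [h, natDegree_C] at hdegφ
      omega
    have hdeg2 : (φ.map ψ - C s).natDegree ≤ d := by
      rw [natDegree_sub_C, hdegφ]
    have hinjOn : Set.InjOn (fun t : ℕ => (t : κ)) (range p : Set ℕ) := by
      intro x hx y hy hxy
      rw [Finset.coe_range, Set.mem_Iio] at hx hy
      have := (CharP.natCast_eq_natCast κ p).1 hxy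
      rw [Nat.ModEq, Nat.mod_eq_of_lt hx, Nat.mod_eq_of_lt hy] at this
      exact this
    have hsub : (((range p).filter fun t : ℕ => ¬ (GoodOrd g (2 * g + 1) (membf fs φs t) v ∧
      Avoids g Gs (φs.eval (t : 𝓞 K)) (membf fs φs t) v)).filter (fun t => rr t = s)).image
        (fun t : ℕ => (t : κ)) ⊆ (φ.map ψ - C s).roots.toFinset := by
      intro x hx
      obtain ⟨t, ht, rfl⟩ := Finset.mem_image.1 hx
      have hts := (Finset.mem_filter.1 ht).2
      rw [Multiset.mem_toFinset, mem_roots hne, IsRoot.def, eval_sub, eval_C, sub_eq_zero,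
        ← hts, hr]
      simp only
      rw [← Polynomial.eval₂_at_apply, Polynomial.eval₂_eq_eval_map, map_natCast, hφsκ]
    calc _ = ((((range p).filter fun t : ℕ => ¬ (GoodOrd g (2 * g + 1) (membf fs φs t) v ∧
      Avoids g Gs (φs.eval (t : 𝓞 K)) (membf fs φs t) v)).filter (fun t => rr t = s)).image
        (fun t : ℕ => (t : κ))).card := by
          rw [Finset.card_image_of_injOn]
          refine hinjOn.mono ?_
          intro t ht
          exact Finset.mem_coe.2 (Finset.mem_filter.1 (Finset.mem_filter.1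
            (Finset.mem_coe.1 ht)).1).1
      _ ≤ (φ.map ψ - C s).roots.toFinset.card := Finset.card_le_card hsub
      _ ≤ (φ.map ψ - C s).roots.card := Multiset.toFinset_card_le _
      _ ≤ (φ.map ψ - C s).natDegree := card_roots' _
      _ ≤ d := hdeg2
  have hcount : ((range p).filter fun t : ℕ => ¬ (GoodOrd g (2 * g + 1) (membf fs φs t) v ∧
      Avoids g Gs (φs.eval (t : 𝓞 K)) (membf fs φs t) v)).card ≤ d * Z.card := by
    refine (Finset.card_le_mul_card_image (f := rr) _ d (fun s _ => hfib s)).trans ?_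
    refine Nat.mul_le_mul_left _ (Finset.card_le_card ?_)
    intro s hs
    obtain ⟨t, ht, rfl⟩ := Finset.mem_image.1 hs
    exact hbad t (Finset.mem_filter.1 ht).2
  have hcount' : ((((range p).filter fun t : ℕ => ¬ (GoodOrd g (2 * g + 1) (membf fs φs t) v ∧
      Avoids g Gs (φs.eval (t : 𝓞 K)) (membf fs φs t) v)).card : ℕ) : ℝ) ≤ d * Z.card := by
    exact_mod_cast hcount
  have ecard : ∀ S T : Finset ℕ, (∀ t, t ∈ S ↔ t ∈ T) → ((S.card : ℕ) : ℝ) = (T.card : ℕ) :=
    fun S T h => by rw [Finset.ext h]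
  refine (ecard _ _ fun t => ?_).le.trans (hcount'.trans ?_)
  · rw [Finset.mem_filter, Finset.mem_filter]
    exact Iff.rfl
  have hpN' : (N : ℝ) < p := by exact_mod_cast hpN
  have h6 : 4 * g * d / ε < p := hN.trans hpN'
  rw [div_lt_iff₀ hε] at h6
  calc (d : ℝ) * Z.card ≤ d * (2 * g + ε / (2 * d) * p) :=
        mul_le_mul_of_nonneg_left hZcard hdpos.le
    _ = 2 * g * d + ε * p / 2 := by field_simp
    _ ≤ ε * p := by linarith

end Pool.Agent.Helper90.BX
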